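import Pool.Agent.R113.SP.Table
import Pool.Agent.R113.M4

/-!
# MP_b6277e_co, Q1: every superpattern of `T₂ ⊕ T₂` is spectrally arbitrary
-/

set_option autoImplicit false

namespace Pool.Agent.Results.MP_b6277e_co.AllSuperpatterns

open Polynomial Matrix Pool.Agent.R113.SP

/-- The real matrix `A` is a realization of the sign pattern `S`. -/
def Realizes {n : ℕ} (A : Matrix (Fin n) (Fin n) ℝ) (S : Matrix (Fin n) (Fin n) SignType) : Prop :=
  ∀ i j, SignType.sign (A i j) = S i j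

/-- `S` is spectrally arbitrary: every monic real polynomial of degree `n` is the characteristic
polynomial of some realization of `S`. -/
def SpectrallyArbitrary {n : ℕ} (S : Matrix (Fin n) (Fin n) SignType) : Prop :=
  ∀ p : ℝ[X], p.Monic → p.natDegree = n →
    ∃ A : Matrix (Fin n) (Fin n) ℝ, Realizes A S ∧ A.charpoly = p

/-- `S'` is a superpattern of `S`: it agrees with `S` at all nonzero entries of `S`. -/
def IsSuperpattern {n : ℕ} (S' S : Matrix (Fin n) (Fin n) SignType) : Prop :=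
  ∀ i j, S i j ≠ 0 → S' i j = S i j

/-- `T₂ ⊕ T₂` -/
def T2T2 : Matrix (Fin 4) (Fin 4) SignType :=
  !![ 1,  1,  0,  0;
     -1, -1,  0,  0;
      0,  0,  1,  1;
      0,  0, -1, -1]

/-- `T₂` -/
def T2 : Matrix (Fin 2) (Fin 2) SignType := !![1, 1; -1, -1]

theorem T_ll : ∀ i j : Fin 2, T2T2 (Fin.castAdd 2 i) (Fin.castAdd 2 j) = T2 i j := by
  intro i j
  fin_cases i <;> fin_cases j <;> rfl

theorem T_rr : ∀ i j : Fin 2, T2T2 (Fin.natAdd 2 i) (Fin.natAdd 2 j) = T2 i j := by
  intro i j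
  fin_cases i <;> fin_cases j <;> rfl

theorem T2_ne : ∀ i j : Fin 2, T2 i j ≠ 0 := by
  intro i j
  fin_cases i <;> fin_cases j <;> simp [T2]

/-- the equivalence of index sets -/
def e22 : Fin 2 ⊕ Fin 2 ≃ Fin 4 := finSumFinEquiv

theorem e22_l (i : Fin 2) : e22.symm (Fin.castAdd 2 i) = Sum.inl i :=
  finSumFinEquiv_symm_apply_castAdd i

theorem e22_r (i : Fin 2) : e22.symm (Fin.natAdd 2 i) = Sum.inr i :=
  finSumFinEquiv_symm_apply_natAdd i

theorem sign_cast (s : SignType) : SignType.sign (((s : ℤ) : ℝ)) = s := by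
  cases s <;> simp

/-- superpatterns with a zero off-diagonal block -/
theorem reducible_case (S : Matrix (Fin 4) (Fin 4) SignType) (hS : IsSuperpattern S T2T2)
    (h0 : (∀ i j : Fin 2, S (Fin.castAdd 2 i) (Fin.natAdd 2 j) = 0) ∨
      (∀ i j : Fin 2, S (Fin.natAdd 2 i) (Fin.castAdd 2 j) = 0)) : SpectrallyArbitrary S := by
  intro p hp hdeg
  obtain ⟨u, v, rfl⟩ := Pool.Agent.H228R3.Sap.exists_quads 2 p ⟨by simpa using hdeg, hp⟩
  obtain ⟨B, hB, hBc⟩ := R113.M4.real2 (u 0) (v 0)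
  obtain ⟨B', hB', hBc'⟩ := R113.M4.real2 (u 1) (v 1)
  have h1 : ∀ i j : Fin 2, S (Fin.castAdd 2 i) (Fin.castAdd 2 j) = T2 i j := by
    intro i j
    rw [hS _ _ (by rw [T_ll]; exact T2_ne i j), T_ll]
  have h2 : ∀ i j : Fin 2, S (Fin.natAdd 2 i) (Fin.natAdd 2 j) = T2 i j := by
    intro i j
    rw [hS _ _ (by rw [T_rr]; exact T2_ne i j), T_rr]
  set R : Matrix (Fin 2) (Fin 2) ℝ :=
    fun i j => ((S (Fin.castAdd 2 i) (Fin.natAdd 2 j) : ℤ) : ℝ) with hR
  set R' : Matrix (Fin 2) (Fin 2) ℝ :=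
    fun i j => ((S (Fin.natAdd 2 i) (Fin.castAdd 2 j) : ℤ) : ℝ) with hR'
  refine ⟨Matrix.reindex e22 e22 (Matrix.fromBlocks B R R' B'), ?_, ?_⟩
  · intro i j
    refine Fin.addCases (m := 2) (n := 2) (fun i => ?_) (fun i => ?_) i <;>
      refine Fin.addCases (m := 2) (n := 2) (fun j => ?_) (fun j => ?_) j
    · rw [h1, Matrix.reindex_apply, Matrix.submatrix_apply, e22_l, e22_l,
        Matrix.fromBlocks_apply₁₁]
      exact hB i j
    · rw [Matrix.reindex_apply, Matrix.submatrix_apply, e22_l, e22_r,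
        Matrix.fromBlocks_apply₁₂]
      exact sign_cast _
    · rw [Matrix.reindex_apply, Matrix.submatrix_apply, e22_l, e22_r,
        Matrix.fromBlocks_apply₂₁]
      exact sign_cast _
    · rw [h2, Matrix.reindex_apply, Matrix.submatrix_apply, e22_r, e22_r,
        Matrix.fromBlocks_apply₂₂]
      exact hB' i j
  · rw [Matrix.charpoly_reindex, Fin.prod_univ_two]
    rcases h0 with h0 | h0
    · have : R = 0 := by
        ext i j
        show (((S (Fin.castAdd 2 i) (Fin.natAdd 2 j) : SignType) : ℤ) : ℝ) = 0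
        rw [h0 i j]
        simp
      rw [this, Matrix.charpoly_fromBlocks_zero₁₂, hBc, hBc']
    · have : R' = 0 := by
        ext i j
        show (((S (Fin.natAdd 2 i) (Fin.castAdd 2 j) : SignType) : ℤ) : ℝ) = 0
        rw [h0 i j]
        simp
      rw [this, Matrix.charpoly_fromBlocks_zero₂₁, hBc, hBc']

theorem sign_of_ne (s : SignType) (h : s ≠ 0) : s = if decide (s = 1) = true then 1 else -1 := by
  cases s <;> simp_all

/-- **Full answer to Q1**: every superpattern of `T₂ ⊕ T₂` is spectrally arbitrary. -/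
theorem result : ∀ S : Matrix (Fin 4) (Fin 4) SignType,
    IsSuperpattern S T2T2 → SpectrallyArbitrary S := by
  intro S hS
  by_cases h0 : (∀ i j : Fin 2, S (Fin.castAdd 2 i) (Fin.natAdd 2 j) = 0) ∨
      (∀ i j : Fin 2, S (Fin.natAdd 2 i) (Fin.castAdd 2 j) = 0)
  · exact reducible_case S hS h0
  · push Not at h0
    obtain ⟨⟨i, j, hu⟩, ⟨k, l, hv⟩⟩ := h0
    intro p hp hdeg
    set u : Bool := decide (S (Fin.castAdd 2 i) (Fin.natAdd 2 j) = 1) with hudef
    set v : Bool := decide (S (Fin.natAdd 2 k) (Fin.castAdd 2 l) = 1) with hvdef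
    have hu' := sign_of_ne _ hu
    have hv' := sign_of_ne _ hv
    rw [← hudef] at hu'
    rw [← hvdef] at hv'
    refine nilpotent_jacobian (A0 (idx i j u k l v)) (ps (idx i j u k l v))
      (table1 i j u k l v) (table2 i j u k l v) (table3 i j u k l v) S ?_ p hp hdeg
    intro a b hab
    rcases table5 i j u k l v a b hab with ⟨h1, h2⟩ | ⟨h1, h2⟩ | ⟨h1, h2⟩
    · rw [← h2]
      exact hS a b h1
    · rw [h2, ← hu']
      have h3 : a = Fin.castAdd 2 i := congrArg Prod.fst h1
      have h4 : b = Fin.natAdd 2 j := congrArg Prod.snd h1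
      rw [h3, h4]
    · rw [h2, ← hv']
      have h3 : a = Fin.natAdd 2 k := congrArg Prod.fst h1
      have h4 : b = Fin.castAdd 2 l := congrArg Prod.snd h1
      rw [h3, h4]

end Pool.Agent.Results.MP_b6277e_co.AllSuperpatterns
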